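import Mathlib
import Pool.Agent.H932R6.FinalR

set_option autoImplicit false

/-!
# Maximal rank for general collisions, multiplicities up to `r ^ q`: all degrees but at most one

For every `q` and `ε > 0` there is an `N` such that for all `r ≥ N`, `1 ≤ m ≤ r ^ q` and every
algebraically closed field `k` of characteristic zero or greater than `r (m + 2)`, the subscheme
of the plane with ideal `(y - (a₀ + a₁ x + ... + a_(r-1) x ^ (r-1)), (x - c) ^ r) ^ m` imposes
independent conditions on forms of degree `d`, or lies on no form of degree `d`, for all `d` with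
`|2 d + 3 - √r - 2 √r m| ≥ ε`, and for all `(c, a)` outside a hypersurface.
-/

namespace Pool.Agent.Results.MP_e6aa12_ag.CollisionAllButOne

open Polynomial

/-- The forms of degree `d` in three variables whose dehomogenisation lies in the ideal
`(y - ∑ a_j x ^ j, (x - c) ^ r) ^ m` of `k[x][y]`. -/
noncomputable def forms {k : Type} [Field k] {r : ℕ} (m : ℕ) (c : k) (a : Fin r → k) (d : ℕ) :
    Submodule k (MvPolynomial (Fin 3) k) :=
  MvPolynomial.homogeneousSubmodule (Fin 3) k d ⊓
    (Submodule.restrictScalars k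
      ((Ideal.span {X - C (∑ j : Fin r, C (a j) * X ^ (j : ℕ)), C ((X - C c) ^ r)} :
        Ideal k[X][X]) ^ m)).comap
      (MvPolynomial.aeval ![C X, X, 1] :
        MvPolynomial (Fin 3) k →ₐ[k] k[X][X]).toLinearMap

theorem result (q : ℕ) (ε : ℝ) (hε : 0 < ε) : ∃ N : ℕ, ∀ r : ℕ, N ≤ r → ∀ m : ℕ, 0 < m → m ≤ r ^ q →
    ∀ (k : Type) [Field k] [IsAlgClosed k],
    (∀ j : ℕ, 0 < j → j ≤ r * (m + 2) → (j : k) ≠ 0) →
    ∃ F : MvPolynomial (Fin (r + 1)) k, F ≠ 0 ∧
      ∀ (c : k) (a : Fin r → k), MvPolynomial.eval (Fin.cons c a : Fin (r + 1) → k) F ≠ 0 →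
        ∀ d : ℕ, ε ≤ |2 * (d : ℝ) + 3 - Real.sqrt r - 2 * (Real.sqrt r * m)| →
          Module.finrank k ↥(forms m c a d) = Nat.choose (d + 2) 2 - r * Nat.choose (m + 1) 2 := by
  obtain ⟨N, hN, h⟩ := H932R6.exists_data (q + 1) hε
  refine ⟨N, fun r hr m hm hmq k _ _ hchar => ?_⟩
  have : Infinite k := IsAlgClosed.instInfinite
  obtain ⟨u, v, δ, σ, hD⟩ := h r hr
  obtain ⟨F, hF, hF'⟩ := H932R6.win_collisionR (K := k) hD (by omega) (by omega) hm
    (hmq.trans (Nat.pow_le_pow_right (by omega) (by omega))) hchar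
  exact ⟨F, hF, fun c a hP d hd => hF' c a hP d (H932R6.WinE.uni (by omega) hd)⟩

end Pool.Agent.Results.MP_e6aa12_ag.CollisionAllButOne
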