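import Mathlib
import Pool.Agent.H932R3.Collide

set_option autoImplicit false

/-!
# Maximal rank for general collisions: all degrees but three, `m` up to `r ^ (3/2) / 16`

For `r ≥ 100`, `m ≥ 1` with `256 m ^ 2 ≤ r ^ 3` (or `r ≡ 0, 1 mod 4` and `100 m ≤ r ^ 2`) and an
algebraically closed field `k` of characteristic zero or greater than `r (m + 2)`, the subscheme
of the plane with ideal `(y - (a₀ + a₁ x + ... + a_(r-1) x ^ (r-1)), (x - c) ^ r) ^ m` imposes
independent conditions on forms of degree `d`, or lies on no form of degree `d`, for all `d` with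
`|2 d + 3 - √r - 2 √r m| ≥ 3` and for all `(c, a)` outside a hypersurface.
-/

namespace Pool.Agent.Results.MP_e6aa12_ag.CollisionAllButThree

open Polynomial

theorem result (k : Type*) [Field k] [IsAlgClosed k] (r : ℕ) (hr : 100 ≤ r) (m : ℕ) (hm : 0 < m)
    (hchar : ∀ q : ℕ, 0 < q → q ≤ r * (m + 2) → (q : k) ≠ 0)
    (h : 256 * m ^ 2 ≤ r ^ 3 ∨ (r % 4 ≤ 1 ∧ 100 * m ≤ r ^ 2)) :
    ∃ F : MvPolynomial (Fin (r + 1)) k, F ≠ 0 ∧
      ∀ (c : k) (a : Fin r → k), MvPolynomial.eval (Fin.cons c a : Fin (r + 1) → k) F ≠ 0 →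
        ∀ d : ℕ, 3 ≤ |2 * (d : ℝ) + 3 - Real.sqrt r - 2 * (Real.sqrt r * m)| →
          Module.finrank k
            ↥(MvPolynomial.homogeneousSubmodule (Fin 3) k d ⊓
              (Submodule.restrictScalars k
                ((Ideal.span {X - C (∑ j : Fin r, C (a j) * X ^ (j : ℕ)), C ((X - C c) ^ r)} :
                  Ideal k[X][X]) ^ m)).comap
                (MvPolynomial.aeval ![C X, X, 1] :
                  MvPolynomial (Fin 3) k →ₐ[k] k[X][X]).toLinearMap)
          = Nat.choose (d + 2) 2 - r * Nat.choose (m + 1) 2 := by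
  have : Infinite k := IsAlgClosed.instInfinite
  exact H932R3.crit_collision hr hm h hchar

end Pool.Agent.Results.MP_e6aa12_ag.CollisionAllButThree
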