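import Mathlib
import Pool.Agent.H932R3.Collide

set_option autoImplicit false

/-!
# Maximal rank for general collisions of every multiplicity, up to relative error `r ^ -q`

For every `q` there is an `N` such that for all `r ≥ N`, all `m ≥ 1` and every algebraically closed
field `k` of characteristic zero or greater than `r ^ 3 m`, the subscheme of the plane with ideal
`(y - (a₀ + a₁ x + ... + a_(r-1) x ^ (r-1)), (x - c) ^ r) ^ m` imposes independent conditions on
forms of degree `d`, or lies on no form of degree `d`, for all `d > 0` with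
`d ≤ (1 - r ^ (-q)) √r m` or `d ≥ (1 + r ^ (-q)) √r m + √r` and for all `(c, a)` outside a
hypersurface.
-/

namespace Pool.Agent.Results.MP_e6aa12_ag.CollisionEveryMultiplicity

open Polynomial

/-- The forms of degree `d` in three variables whose dehomogenisation lies in the ideal
`(y - ∑ a_j x ^ j, (x - c) ^ r) ^ m` of `k[x][y]`. -/
noncomputable def forms {k : Type} [Field k] {r : ℕ} (m : ℕ) (c : k) (a : Fin r → k) (d : ℕ) :
    Submodule k (MvPolynomial (Fin 3) k) :=
  MvPolynomial.homogeneousSubmodule (Fin 3) k d ⊓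
    (Submodule.restrictScalars k
      ((Ideal.span {X - C (∑ j : Fin r, C (a j) * X ^ (j : ℕ)), C ((X - C c) ^ r)} :
        Ideal k[X][X]) ^ m)).comap
      (MvPolynomial.aeval ![C X, X, 1] :
        MvPolynomial (Fin 3) k →ₐ[k] k[X][X]).toLinearMap

theorem result (q : ℕ) : ∃ N : ℕ, ∀ r : ℕ, N ≤ r → ∀ m : ℕ, 0 < m →
    ∀ (k : Type) [Field k] [IsAlgClosed k],
    (∀ j : ℕ, 0 < j → j ≤ r ^ 3 * m → (j : k) ≠ 0) →
    ∃ F : MvPolynomial (Fin (r + 1)) k, F ≠ 0 ∧
      ∀ (c : k) (a : Fin r → k), MvPolynomial.eval (Fin.cons c a : Fin (r + 1) → k) F ≠ 0 →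
        ∀ d : ℕ, 0 < d →
          ((d : ℝ) ≤ (1 - 1 / (r : ℝ) ^ q) * (Real.sqrt r * m) ∨
            (1 + 1 / (r : ℝ) ^ q) * (Real.sqrt r * m) + Real.sqrt r ≤ d) →
          Module.finrank k ↥(forms m c a d) = Nat.choose (d + 2) 2 - r * Nat.choose (m + 1) 2 := by
  obtain ⟨N, hN, h⟩ := H932R3.exists_wedge q
  refine ⟨N, fun r hr m hm k _ _ hchar => ?_⟩
  have : Infinite k := IsAlgClosed.instInfinite
  obtain ⟨δ, σ, hD⟩ := h r hr
  exact H932R3.wedge_collision (by omega) hD hm hchar

end Pool.Agent.Results.MP_e6aa12_ag.CollisionEveryMultiplicity
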