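import Mathlib
import Pool.Agent.H932R2.Main

set_option autoImplicit false

/-!
# Maximal rank for general collisions of fat points

For `r > 9`, `m ≥ 1` with `m ≤ r - 6 √r + 11` (or satisfying the slightly weaker numerical
condition below) and an algebraically closed field `k` of characteristic zero or greater than
`r (m + 1)`, the subscheme of the plane with ideal
`(y - (a₀ + a₁ x + ... + a_(r-1) x ^ (r-1)), (x - c) ^ r) ^ m` imposes independent conditions on
forms of degree `d`, or lies on no form of degree `d`, for all `d` and for all `(c, a)` outside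
a hypersurface.
-/

namespace Pool.Agent.Results.MP_e6aa12_ag.CollisionMaxRank

open Polynomial

theorem result (k : Type*) [Field k] [IsAlgClosed k] (r : ℕ) (hr : 9 < r) (m : ℕ) (hm : 0 < m)
    (hchar : ∀ q : ℕ, 0 < q → q ≤ r * (m + 1) → (q : k) ≠ 0)
    (h : (m : ℝ) ≤ r - 6 * Real.sqrt r + 11 ∨
      ∃ δ κ : ℕ, 2 ≤ δ ∧ r = δ ^ 2 + 2 * κ ∧
        (κ = 0 ∨ r * m * (m + 1) < δ ^ 2 * (δ ^ 2 + 3) * (δ ^ 2 + 4))) :
    ∃ F : MvPolynomial (Fin (r + 1)) k, F ≠ 0 ∧
      ∀ (c : k) (a : Fin r → k), MvPolynomial.eval (Fin.cons c a : Fin (r + 1) → k) F ≠ 0 →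
        ∀ d : ℕ,
          Module.finrank k
            ↥(MvPolynomial.homogeneousSubmodule (Fin 3) k d ⊓
              (Submodule.restrictScalars k
                ((Ideal.span {X - C (∑ j : Fin r, C (a j) * X ^ (j : ℕ)), C ((X - C c) ^ r)} :
                  Ideal k[X][X]) ^ m)).comap
                (MvPolynomial.aeval ![C X, X, 1] :
                  MvPolynomial (Fin 3) k →ₐ[k] k[X][X]).toLinearMap)
          = Nat.choose (d + 2) 2 - r * Nat.choose (m + 1) 2 := by
  have hcond : ∃ δ κ, H932R2.Cond r m δ κ := by
    rcases h with h | ⟨δ, κ, h1, h2, h3⟩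
    · exact H932R2.cond_of_le hr h
    · exact ⟨δ, κ, h1, by rw [h2]; ring, by rcases h3 with h3 | h3
                                            · exact Or.inl h3
                                            · right
                                              simpa [pow_two] using h3⟩
  have : Infinite k := IsAlgClosed.instInfinite
  exact H932R2.collision_main hr hm hcond hchar

end Pool.Agent.Results.MP_e6aa12_ag.CollisionMaxRank
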